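import Pool.Agent.Helper54.SP.StmtsW

/-! Module EK of MP_308581_lc. -/

namespace Pool.Agent.Helper54.SP

open Finset Pool.Agent.Helper54.Poly

variable {α β : Type} [TEnc α] [TEnc β]

theorem ek_ite {P : α → Prop} [DecidablePred P] {u v : α → β} (hP : PT (fun a => decide (P a)))
    (hu : PT u) (hv : PT v) : PT (fun a => if P a then u a else v a) :=
  (PT.ite hP hu hv).congr fun a => by by_cases h : P a <;> simp [h]

theorem ek_lt {f g : α → ℕ} (hf : PT f) (hg : PT g) : PT (fun a => decide (f a < g a)) :=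
  (PT.leN hf.succ hg).congr fun a => by
    by_cases h : f a < g a <;> simp [h]

theorem ek_u {g : α → Gt} (hg : PT g) : PT (fun a => (g a).u) := hg.snd.snd.fst

theorem ek_u' {g : α → Gt} (hg : PT g) : PT (fun a => (g a).u') := hg.snd.snd.snd.fst

theorem ek_a {g : α → Gt} (hg : PT g) : PT (fun a => (g a).a) := hg.snd.snd.snd.snd.fst

theorem ek_a' {g : α → Gt} (hg : PT g) : PT (fun a => (g a).a') := hg.snd.snd.snd.snd.snd

theorem ek_c {g : α → Gt} (hg : PT g) : PT (fun a => (g a).c) := hg.snd.fst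

theorem ek_k {g : α → Gt} (hg : PT g) : PT (fun a => (g a).k) := hg.fst

theorem st_EK (hE8 : ST_E8) : ST_EK := by
  intro α _ Γ p hΓ hp
  have hp4 : PT (fun a => p a + 4) := hp.add (PT.const 4)
  have hgrp : PT (fun a => grp (p a)) := (hE8 _ hp4).1
  have hcrn : PT (fun a => crn (p a)) := (hE8 _ hp4).2.1
  have hc2 : PT (fun a => crn (p a) / 2) := (hE8 _ hcrn).2.2.1
  have hcm : PT (fun a => crn (p a) % 2) := (hE8 _ hcrn).2.2.2
  have hgat : PT (fun a => gat (Γ a) (p a)) :=
    PT.getD (hgrp.sub (PT.const 1)) hΓ (PT.const _)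
  have hwir : PT (fun a => wir (Γ a) (p a)) := by
    unfold wir
    exact ek_ite (PT.eqN hc2 (PT.const 0)) (ek_u hgat)
      (ek_ite (PT.eqN hc2 (PT.const 1)) (ek_u' hgat)
        (ek_ite (PT.eqN hc2 (PT.const 2)) (ek_a hgat) (ek_a' hgat)))
  have hxr : PT (fun a => xr (crn (p a))) := PT.getD hcrn (PT.const _) (PT.const 0)
  have hsr : PT (fun a => sr (crn (p a))) := PT.getD hcrn (PT.const _) (PT.const 0)
  have hlt4 : PT (fun a => decide (p a < 4)) := ek_lt hp (PT.const 4)
  have hxk : PT (fun a => xk (p a)) := by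
    unfold xk
    exact ek_ite hlt4 (hp.sub (PT.const 2))
      ((((PT.const 8).mul hgrp).sub (PT.const 6)).add hxr)
  have hlen : PT (fun a => (Γ a).length) := hΓ.length
  have hyk : PT (fun a => yk (Γ a) (p a)) := by
    unfold yk
    exact ek_ite hlt4 (hp.sub (PT.const 2))
      (((PT.const 2).add (hwir.mul ((PT.const 2).mul hlen))).add
        (ek_ite (PT.eqN hcm (PT.const 0)) (hlen.add (ek_c hgat))
          ((hlen.sub (PT.const 1)).sub (ek_c hgat))))
  have hhi : PT (fun a => hi (Γ a) (p a)) := by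
    unfold hi
    exact ek_ite (PT.leN (PT.const 4) hcrn) (ek_lt (ek_u hgat) (ek_a hgat))
      (ek_lt (ek_a hgat) (ek_u hgat))
  have hsk : PT (fun a => sk (Γ a) (p a)) := by
    unfold sk
    exact ((PT.const 8).mul (hgrp.sub (PT.const 1))).add
      ((PT.const 7).sub (hsr.add (PT.ite hhi (PT.const 4) (PT.const 0))))
  have hNN : PT (fun a => NN (Γ a)) := by
    unfold NN
    exact (PT.const 4).add ((PT.const 8).mul hlen)
  exact ⟨hgrp, hcrn, hgat, hwir, hxk, hyk, hsk, hNN⟩

end Pool.Agent.Helper54.SP
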