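import Pool.Agent.Helper54.SP.StmtsP

/-! Module NORM of MP_308581_lc. -/

namespace Pool.Agent.Helper54.SP

open Finset

lemma norm_dt (X : ℕ → ℕ → ℝ) (p q r : ℕ) : dt 3 X [p, q, r] =
    X p 0 * X q 1 * X r 2 - X p 0 * X q 2 * X r 1 - X p 1 * X q 0 * X r 2 +
      X p 1 * X q 2 * X r 0 + X p 2 * X q 0 * X r 1 - X p 2 * X q 1 * X r 0 := by
  unfold dt
  rw [Matrix.det_fin_three]
  simp

theorem st_NORM (hCOO : ST_COO) (hBR : ST_BR) : ST_NORM := by
  intro N m X hN hb hpos
  set b := br N m X 0 1 2 with hbdef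
  have z1 : ∀ p r, br N m X p p r = 0 := by
    intro p r
    have := (hBR N m X p p r).1
    linarith
  have z2 : ∀ p r, br N m X r p p = 0 := by
    intro p r
    have := (hBR N m X r p p).2.1
    linarith
  have z3 : ∀ p r, br N m X p r p = 0 := by
    intro p r
    have := (hBR N m X p p r).2.2.1
    rw [this, z1]
  obtain ⟨al, hal⟩ : ∃ al : ℕ → ℝ, ∀ p, al p = br N m X p 1 2 / b := ⟨_, fun _ => rfl⟩
  obtain ⟨be, hbe⟩ : ∃ be : ℕ → ℝ, ∀ p, be p = br N m X 0 p 2 / b := ⟨_, fun _ => rfl⟩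
  obtain ⟨ga, hga⟩ : ∃ ga : ℕ → ℝ, ∀ p, ga p = br N m X 0 1 p / b := ⟨_, fun _ => rfl⟩
  have hal' : ∀ p, br N m X p 1 2 = b * al p := by
    intro p
    rw [hal]
    field_simp
  have hbe' : ∀ p, br N m X 0 p 2 = b * be p := by
    intro p
    rw [hbe]
    field_simp
  have hga' : ∀ p, br N m X 0 1 p = b * ga p := by
    intro p
    rw [hga]
    field_simp
  have hcoo : ∀ p q r, br N m X p q r = b * (al p * (be q * ga r - ga q * be r) -
      be p * (al q * ga r - ga q * al r) + ga p * (al q * be r - be q * al r)) := by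
    intro p q r
    have h := hCOO N m X p q r hb
    rw [← hbdef] at h
    simp only [hal', hbe', hga'] at h
    have hb2 : b ^ 2 ≠ 0 := pow_ne_zero 2 hb
    apply mul_right_cancel₀ hb2
    rw [h]
    ring
  have a0 : al 0 = 1 := by rw [hal, ← hbdef, div_self hb]
  have a1 : al 1 = 0 := by rw [hal, z1, zero_div]
  have a2 : al 2 = 0 := by rw [hal, z3, zero_div]
  have b0 : be 0 = 0 := by rw [hbe, z1, zero_div]
  have b1 : be 1 = 1 := by rw [hbe, ← hbdef, div_self hb]
  have b2 : be 2 = 0 := by rw [hbe, z2, zero_div]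
  have g0 : ga 0 = 0 := by rw [hga, z3, zero_div]
  have g1 : ga 1 = 0 := by rw [hga, z2, zero_div]
  have g2 : ga 2 = 1 := by rw [hga, ← hbdef, div_self hb]
  have hdiv : ∀ t : ℝ, 0 < b * t → 0 < t / b := by
    intro t ht
    have : t / b = (b * t) / (b * b) := by
      field_simp
    rw [this]
    exact div_pos ht (mul_self_pos.mpr hb)
  have gpos : ∀ p, 3 ≤ p → p < N → 0 < ga p := by
    intro p h1 h2
    rw [hga]
    exact hdiv _ (hpos p h1 h2).1
  have bpos : ∀ p, 3 ≤ p → p < N → 0 < be p := by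
    intro p h1 h2
    rw [hbe]
    exact hdiv _ (hpos p h1 h2).2.1
  have apos : ∀ p, 3 ≤ p → p < N → 0 < al p := by
    intro p h1 h2
    rw [hal]
    exact hdiv _ (hpos p h1 h2).2.2
  have A3 := apos 3 le_rfl (by omega)
  have B3 := bpos 3 le_rfl (by omega)
  have G3 := gpos 3 le_rfl (by omega)
  obtain ⟨A, hA⟩ : ∃ A : ℝ, A = al 3 / ga 3 := ⟨_, rfl⟩
  obtain ⟨B, hB⟩ : ∃ B : ℝ, B = be 3 / ga 3 := ⟨_, rfl⟩
  have hAp : 0 < A := hA ▸ div_pos A3 G3
  have hBp : 0 < B := hB ▸ div_pos B3 G3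
  have g2p : ∀ p, 2 ≤ p → p < N → 0 < ga p := by
    intro p h1 h2
    rcases eq_or_lt_of_le h1 with h | h
    · rw [← h, g2]
      exact one_pos
    · exact gpos p h h2
  refine ⟨fun p => be p / ga p / B, fun p => al p / ga p / A,
    fun p => if p = 0 then 1 / A else if p = 1 then 1 / B else ga p, -b * A * B, ?_, ?_, ?_, ?_,
    ?_, ?_, ?_⟩
  · exact mul_ne_zero (mul_ne_zero (neg_ne_zero.mpr hb) hAp.ne') hBp.ne'
  · intro p hp
    dsimp only
    split_ifs with h1 h2
    · exact one_div_pos.mpr hAp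
    · exact one_div_pos.mpr hBp
    · exact g2p p (by omega) hp
  · simp [b2]
  · simp [a2]
  · dsimp only
    rw [← hB, div_self hBp.ne']
  · dsimp only
    rw [← hA, div_self hAp.ne']
  · intro p q r hp hq hr
    set x : ℕ → ℝ := fun p => be p / ga p / B with hx
    set y : ℕ → ℝ := fun p => al p / ga p / A with hy
    obtain ⟨w, hw⟩ : ∃ w : ℕ → ℝ, w = fun p => if p = 0 then 1 / A else if p = 1 then 1 / B
      else ga p := ⟨_, rfl⟩
    have key : ∀ p, p < N → al p = w p * A * pl x y p 1 ∧ be p = w p * B * pl x y p 0 ∧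
        ga p = w p * pl x y p 2 := by
      intro p hp
      rw [hw]
      by_cases h0 : p = 0
      · subst h0
        simp only [pl, a0, b0, g0]
        refine ⟨?_, ?_, ?_⟩
        · simp [hAp.ne']
        · simp
        · simp
      by_cases h1 : p = 1
      · subst h1
        simp only [pl, a1, b1, g1]
        refine ⟨?_, ?_, ?_⟩
        · simp
        · simp [hBp.ne']
        · simp
      have hg := g2p p (by omega) hp
      simp only [pl, h0, h1, if_false]
      refine ⟨?_, ?_, ?_⟩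
      · simp only [hy]
        norm_num
        field_simp
      · simp only [hx]
        norm_num
        field_simp
      · norm_num
    rw [← hw] at *
    rw [hcoo p q r, norm_dt]
    obtain ⟨p1, p2, p3⟩ := key p hp
    obtain ⟨q1, q2, q3⟩ := key q hq
    obtain ⟨r1, r2, r3⟩ := key r hr
    rw [p1, p2, p3, q1, q2, q3, r1, r2, r3]
    ring

end Pool.Agent.Helper54.SP
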