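import Pool.Agent.Helper54.SP.StmtsP

/-! Module P1 of MP_308581_lc. -/

namespace Pool.Agent.Helper54.SP

open Finset

lemma p1_rep (k : ℕ) (X : ℕ → ℕ → ℝ) (f : List ℕ) (i : ℕ) (hf : f.length + 1 = k)
    (hi : i ∈ f) : dt k X (f ++ [i]) = 0 := by
  obtain ⟨j, hj, hji⟩ := List.getElem_of_mem hi
  unfold dt
  refine Matrix.det_zero_of_row_eq (i := ⟨j, by omega⟩) (j := ⟨f.length, by omega⟩) ?_ ?_
  · intro h
    have := congrArg Fin.val h
    simp only at this
    omega
  · funext t
    simp only [Matrix.of_apply]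
    have h1 : (f ++ [i]).getD j 0 = i := by
      rw [List.getD_eq_getElem?_getD, List.getElem?_append_left hj, List.getElem?_eq_getElem hj,
        hji]
      rfl
    have h2 : (f ++ [i]).getD f.length 0 = i := by
      rw [List.getD_eq_getElem?_getD, List.getElem?_append_right le_rfl]
      simp
    rw [h1, h2]

lemma p1_out (n : ℕ) (f : List ℕ) (hf : f.length < n) : ∃ x, x < n ∧ x ∉ f := by
  by_contra hcon
  push Not at hcon
  have h1 : range n ⊆ f.toFinset := by
    intro x hx
    rw [List.mem_toFinset]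
    exact hcon x (Finset.mem_range.mp hx)
  have h2 := Finset.card_le_card h1
  rw [card_range] at h2
  have h3 := f.toFinset_card_le
  omega

lemma p1_sides (hPF : ST_PF) (d n : ℕ) (p : ℕ → Fin d → ℝ) (f : List ℕ) (hdn : d < n)
    (hU : Unif d n p) (hnd : f.Nodup) (hlen : f.length = d) (hfn : ∀ i ∈ f, i < n)
    (hOS : OS (d + 1) (hom d p) n f) :
    ∃ (L : (Fin d → ℝ) →ₗ[ℝ] ℝ) (c : ℝ), (∀ i ∈ f, L (p i) = c) ∧
      ∀ i, i < n → i ∉ f → L (p i) < c := by
  obtain ⟨L, c, hL⟩ := hPF d p f hlen
  obtain ⟨x0, hx0, hx0f⟩ := p1_out n f (by omega)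
  have hin : ∀ i ∈ f, L (p i) = c := by
    intro i hi
    have := hL i
    rw [p1_rep _ _ _ _ (by omega) hi] at this
    linarith
  have hne : L (p x0) - c ≠ 0 := by
    rw [← hL x0]
    apply hU
    · simp [hlen]
    · rw [List.nodup_append]
      refine ⟨hnd, by simp, ?_⟩
      intro a ha b hb
      rw [List.mem_singleton] at hb
      subst hb
      intro h
      exact hx0f (h ▸ ha)
    · intro i hi
      rcases List.mem_append.mp hi with hi | hi
      · exact hfn i hi
      · rw [List.mem_singleton] at hi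
        rw [hi]
        exact hx0
  rcases lt_or_gt_of_ne hne with hs | hs
  · refine ⟨L, c, hin, ?_⟩
    intro i hi hif
    have h1 := hOS x0 i hx0 hi hx0f hif
    rw [hL, hL] at h1
    nlinarith
  · refine ⟨-L, -c, ?_, ?_⟩
    · intro i hi
      rw [LinearMap.neg_apply, hin i hi]
    · intro i hi hif
      have h1 := hOS x0 i hx0 hi hx0f hif
      rw [hL, hL] at h1
      rw [LinearMap.neg_apply]
      nlinarith

theorem st_P1 (hPF : ST_PF) (hPC : ST_PC) (hPI : ST_PI) : ST_P1 := by
  intro d n p f hd hdn hU hnd hlen hfn hOS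
  obtain ⟨L, c, hin, hout⟩ := p1_sides hPF d n p f hdn hU hnd hlen hfn hOS
  have hle : ∀ i, i < n → L (p i) ≤ c := by
    intro i hi
    by_cases hif : i ∈ f
    · exact (hin i hif).le
    · exact (hout i hi hif).le
  have hset : {i | i < n ∧ L (p i) = c} = {i | i ∈ f} := by
    ext i
    simp only [Set.mem_setOf_eq]
    constructor
    · rintro ⟨h1, h2⟩
      by_contra hif
      exact absurd h2 (hout i h1 hif).ne
    · intro hi
      exact ⟨hfn i hi, hin i hi⟩
  refine ⟨L, c, ?_, ?_, ?_, ?_⟩
  · intro x hx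
    have hsub : hul d n p ⊆ {x | L x ≤ c} := by
      apply convexHull_min
      · rintro _ ⟨i, hi, rfl⟩
        exact hle i hi
      · exact convex_halfSpace_le L.isLinear c
    exact hsub hx
  · rw [hPC d n p L c hle, hset]
  · have hfne : f ≠ [] := by
      intro h
      rw [h] at hlen
      simp at hlen
      omega
    obtain ⟨i, hi⟩ := List.exists_mem_of_ne_nil f hfne
    exact ⟨p i, subset_convexHull ℝ _ ⟨i, hi, rfl⟩⟩
  · have hai := hPI d n p hdn hU f.toFinset (by
      rw [List.toFinset_card_of_nodup hnd]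
      omega) (by
      intro i hi
      exact hfn i (List.mem_toFinset.mp hi))
    have hrange : p '' {i | i ∈ f} = Set.range (fun i : f.toFinset => p i) := by
      ext x
      constructor
      · rintro ⟨i, hi, rfl⟩
        exact ⟨⟨i, List.mem_toFinset.mpr hi⟩, rfl⟩
      · rintro ⟨i, rfl⟩
        exact ⟨i, List.mem_toFinset.mp i.2, rfl⟩
    have hcard : Fintype.card f.toFinset = (d - 1) + 1 := by
      rw [Fintype.card_coe, List.toFinset_card_of_nodup hnd]
      omega
    rw [← direction_affineSpan, affineSpan_convexHull, direction_affineSpan, hrange,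
      hai.finrank_vectorSpan hcard]
    omega

end Pool.Agent.Helper54.SP
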